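import Mathlib

set_option autoImplicit false
open Matrix Finset

namespace Pool.Agent.H.MP_284e51_co

variable {n : ℕ}

noncomputable def eps (v : Fin n) (s : Finset (Fin n)) : ℝ :=
  (-1 : ℝ) ^ (Finset.filter (fun w => w < v) s).card

theorem eps_sq (v : Fin n) (s : Finset (Fin n)) : eps v s * eps v s = 1 := by
  unfold eps
  rw [← mul_pow]; simp

theorem eps_insert (v w : Fin n) (s : Finset (Fin n)) (hw : w ∉ s) :
    eps v (insert w s) = (if w < v then -1 else 1) * eps v s := by
  unfold eps
  rw [Finset.filter_insert]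
  split_ifs with h
  · rw [Finset.card_insert_of_notMem (by simp [hw]), pow_succ]; ring
  · ring

theorem eps_insert_self (v : Fin n) (s : Finset (Fin n)) (hv : v ∉ s) :
    eps v (insert v s) = eps v s := by
  rw [eps_insert v v s hv]; simp

theorem eps_erase (v w : Fin n) (s : Finset (Fin n)) (hw : w ∈ s) :
    eps v s = (if w < v then -1 else 1) * eps v (s.erase w) := by
  rw [← eps_insert v w (s.erase w) (by simp), Finset.insert_erase hw]

noncomputable def cr (v : Fin n) (y : Finset (Fin n) → ℝ) : Finset (Fin n) → ℝ :=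
  fun t => if v ∈ t then 0 else eps v t * y (insert v t)

noncomputable def wd (v : Fin n) (y : Finset (Fin n) → ℝ) : Finset (Fin n) → ℝ :=
  fun s => if v ∈ s then eps v s * y (s.erase v) else 0

theorem sum_swap_v (v : Fin n) (F : Finset (Fin n) → Finset (Fin n) → ℝ) :
    ∑ t : Finset (Fin n), (if v ∈ t then 0 else F t (insert v t)) =
      ∑ s : Finset (Fin n), (if v ∈ s then F (s.erase v) s else 0) := by
  have h1 : ∑ t : Finset (Fin n), (if v ∈ t then 0 else F t (insert v t)) =
      ∑ t ∈ Finset.univ.filter (fun t : Finset (Fin n) => v ∉ t), F t (insert v t) := by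
    rw [Finset.sum_filter]
    refine Finset.sum_congr rfl fun t _ => ?_
    by_cases h : v ∈ t <;> simp [h]
  rw [h1, ← Finset.sum_filter]
  refine Finset.sum_nbij' (fun t => insert v t) (fun s => s.erase v) ?_ ?_ ?_ ?_ ?_
  · intro t _; simp
  · intro s _; simp
  · intro t ht
    simp only [Finset.mem_filter, Finset.mem_univ, true_and] at ht
    exact Finset.erase_insert ht
  · intro s hs
    simp only [Finset.mem_filter, Finset.mem_univ, true_and] at hs
    exact Finset.insert_erase hs
  · intro t ht
    simp only [Finset.mem_filter, Finset.mem_univ, true_and] at ht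
    rw [Finset.erase_insert ht]

theorem adj (v : Fin n) (y z : Finset (Fin n) → ℝ) : cr v y ⬝ᵥ z = y ⬝ᵥ wd v z := by
  unfold dotProduct
  have := sum_swap_v v (fun t s => eps v s * y s * z t)
  calc ∑ t, cr v y t * z t
      = ∑ t : Finset (Fin n), (if v ∈ t then 0 else eps v (insert v t) * y (insert v t) * z t) := by
        refine Finset.sum_congr rfl fun t _ => ?_
        unfold cr
        by_cases h : v ∈ t
        · simp [h]
        · simp [h, eps_insert_self v t h]
    _ = _ := this
    _ = _ := by
        refine Finset.sum_congr rfl fun s _ => ?_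
        unfold wd
        by_cases h : v ∈ s
        · simp only [h, if_true]; ring
        · simp [h]

theorem car_mixed (v w : Fin n) (y : Finset (Fin n) → ℝ) (t : Finset (Fin n)) :
    cr v (wd w y) t + wd w (cr v y) t = if v = w then y t else 0 := by
  unfold cr wd
  by_cases hvw : v = w
  · subst hvw
    by_cases h : v ∈ t
    · have h2 : eps v t = eps v (t.erase v) := by rw [eps_erase v v t h]; simp
      simp only [h, if_true, Finset.notMem_erase, if_false, Finset.insert_erase h, zero_add]
      rw [← h2, ← mul_assoc, eps_sq, one_mul]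
    · simp only [h, if_false, Finset.mem_insert_self, if_true, Finset.erase_insert h, add_zero]
      rw [eps_insert_self v t h, ← mul_assoc, eps_sq, one_mul]
  · have hwv : w ≠ v := fun h => hvw h.symm
    by_cases hv : v ∈ t <;> by_cases hw : w ∈ t
    · simp [hv, hw, hvw]
    · simp [hv, hw, hvw]
    · have e1 : (insert v t).erase w = insert v (t.erase w) := by
        rw [Finset.erase_insert_of_ne hvw]
      have hv' : v ∉ t.erase w := fun h => hv (Finset.mem_of_mem_erase h)
      simp only [hv, hw, hvw, hv', if_true, if_false, Finset.mem_insert, or_true, e1]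
      rw [eps_insert w v t hv, eps_erase v w t hw]
      rcases lt_or_gt_of_ne hvw with h | h
      · simp only [h, if_true, not_lt.2 h.le, if_false]; ring
      · have h' : w < v := h
        simp only [h', if_true, not_lt.2 h'.le, if_false]; ring
    · simp [hv, hw, hvw, hwv]

theorem car_pure (v w : Fin n) (y : Finset (Fin n) → ℝ) (t : Finset (Fin n)) :
    cr v (cr w y) t + cr w (cr v y) t = 0 := by
  unfold cr
  by_cases hvw : v = w
  · subst hvw
    by_cases h : v ∈ t <;> simp [h]
  · have hwv : w ≠ v := fun h => hvw h.symm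
    by_cases hv : v ∈ t <;> by_cases hw : w ∈ t
    · simp [hv, hw]
    · simp [hv, hw]
    · simp [hv, hw]
    · simp only [hv, hw, hvw, hwv, if_false, Finset.mem_insert, or_false]
      rw [eps_insert w v t hv, eps_insert v w t hw, Finset.insert_comm]
      rcases lt_or_gt_of_ne hvw with h | h
      · simp only [h, if_true, not_lt.2 h.le, if_false]; ring
      · have h' : w < v := h
        simp only [h', if_true, not_lt.2 h'.le, if_false]; ring

noncomputable def BB (y : Finset (Fin n) → ℝ) : Finset (Fin n) → ℝ := ∑ v, cr v y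
noncomputable def WW (y : Finset (Fin n) → ℝ) : Finset (Fin n) → ℝ := ∑ v, wd v y

theorem adjBW (y z : Finset (Fin n) → ℝ) : BB y ⬝ᵥ z = y ⬝ᵥ WW z := by
  unfold BB WW
  rw [sum_dotProduct, dotProduct_sum]
  exact Finset.sum_congr rfl fun v _ => adj v y z

theorem cr_sum (v : Fin n) (F : Fin n → Finset (Fin n) → ℝ) (t : Finset (Fin n)) :
    cr v (∑ w, F w) t = ∑ w, cr v (F w) t := by
  unfold cr
  by_cases h : v ∈ t
  · simp [h]
  · simp [h, Finset.mul_sum]

theorem BB_BB (y : Finset (Fin n) → ℝ) : BB (BB y) = 0 := by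
  funext t
  have h1 : BB (BB y) t = ∑ v, ∑ w, cr v (cr w y) t := by
    unfold BB
    rw [Finset.sum_apply]
    exact Finset.sum_congr rfl fun v _ => cr_sum v _ t
  have h2 : ∑ v, ∑ w, cr v (cr w y) t = ∑ v, ∑ w, cr w (cr v y) t := Finset.sum_comm
  have h3 : (∑ v, ∑ w, cr v (cr w y) t) + ∑ v, ∑ w, cr w (cr v y) t = 0 := by
    rw [← Finset.sum_add_distrib]
    refine Finset.sum_eq_zero fun v _ => ?_
    rw [← Finset.sum_add_distrib]
    exact Finset.sum_eq_zero fun w _ => car_pure v w y t
  rw [h1, Pi.zero_apply]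
  linarith

theorem WW_cr (v : Fin n) (y : Finset (Fin n) → ℝ) (t : Finset (Fin n)) :
    WW (cr v y) t = y t - cr v (WW y) t := by
  have h1 : cr v (WW y) t = ∑ w, cr v (wd w y) t := cr_sum v _ t
  have h2 : WW (cr v y) t = ∑ w, wd w (cr v y) t := by
    unfold WW; rw [Finset.sum_apply]
  have h3 : (∑ w, cr v (wd w y) t) + ∑ w, wd w (cr v y) t = y t := by
    rw [← Finset.sum_add_distrib]
    simp only [car_mixed]
    simp
  rw [h1, h2]; linarith

theorem sum_cr_sq (q : Finset (Fin n) → Prop) [DecidablePred q] (y : Finset (Fin n) → ℝ) :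
    ∑ v, ∑ t, (if q t then cr v y t * cr v y t else 0) =
      ∑ s, ((s.filter (fun v => q (s.erase v))).card : ℝ) * (y s * y s) := by
  have h1 : ∀ v, ∑ t, (if q t then cr v y t * cr v y t else 0) =
      ∑ s : Finset (Fin n), (if v ∈ s then (if q (s.erase v) then y s * y s else 0) else 0) := by
    intro v
    rw [← sum_swap_v v (fun t s => if q t then y s * y s else 0)]
    refine Finset.sum_congr rfl fun t _ => ?_
    unfold cr
    by_cases h : v ∈ t
    · simp [h]
    · simp only [h, if_false]
      split_ifs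
      · calc _ = (eps v t * eps v t) * (y (insert v t) * y (insert v t)) := by ring
          _ = _ := by rw [eps_sq, one_mul]
      · rfl
  simp only [h1]
  rw [Finset.sum_comm]
  refine Finset.sum_congr rfl fun s _ => ?_
  rw [Finset.sum_ite_mem, Finset.univ_inter, ← Finset.sum_filter, Finset.sum_const, nsmul_eq_mul]

theorem WW_sq (y : Finset (Fin n) → ℝ) (hy : BB y = 0) :
    WW y ⬝ᵥ WW y = n * (y ⬝ᵥ y) := by
  have h1 : WW y ⬝ᵥ WW y = ∑ v, cr v (WW y) ⬝ᵥ y := by
    conv_lhs => rw [← adjBW]
    unfold BB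
    rw [sum_dotProduct]
  have h2 : ∀ v, cr v (WW y) ⬝ᵥ y = y ⬝ᵥ y := by
    intro v
    have : cr v (WW y) = y - WW (cr v y) := by
      funext t; rw [Pi.sub_apply, WW_cr]; ring
    rw [this, sub_dotProduct, dotProduct_comm (WW _), ← adjBW, hy]
    simp
  rw [h1]
  simp [h2]

theorem core (q r : Finset (Fin n) → Prop) [DecidablePred q] [DecidablePred r] (m : ℕ)
    (hq : ∀ t, q t → t.card = m) (hr : ∀ s, r s → s.card = m + 1 ∧ ∀ v ∈ s, q (s.erase v))
    (hm : 0 < m) (c : ℝ)
    (hc : ∀ f : Finset (Fin n) → ℝ, ∑ t, (if q t then WW f t * WW f t else 0) ≤ c * (f ⬝ᵥ f))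
    (y : Finset (Fin n) → ℝ) (hy : BB y = 0) (hs : ∀ t, ¬ q t → y t = 0) :
    ∑ s, (if r s then WW y s * WW y s else 0) ≤ c * (y ⬝ᵥ y) := by
  have hΦ := WW_sq y hy
  have hA : ∑ v, ∑ t, (if q t then WW (cr v y) t * WW (cr v y) t else 0) ≤
      c * (m * (y ⬝ᵥ y)) := by
    calc _ ≤ ∑ v, c * (cr v y ⬝ᵥ cr v y) := Finset.sum_le_sum fun v _ => hc _
      _ = c * ∑ v, ∑ t, (if True then cr v y t * cr v y t else 0) := by
          rw [Finset.mul_sum]; simp [dotProduct]
      _ = c * ∑ s : Finset (Fin n), (s.card : ℝ) * (y s * y s) := by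
          rw [sum_cr_sq (fun _ => True)]; simp
      _ = _ := by
          congr 1
          unfold dotProduct
          rw [Finset.mul_sum]
          refine Finset.sum_congr rfl fun s _ => ?_
          by_cases h : q s
          · rw [hq s h]
          · simp [hs s h]
  have hB : ∀ v, ∑ t, (if q t then WW (cr v y) t * WW (cr v y) t else 0) =
      y ⬝ᵥ y - 2 * (cr v (WW y) ⬝ᵥ y) +
        ∑ t, (if q t then cr v (WW y) t * cr v (WW y) t else 0) := by
    intro v
    unfold dotProduct
    rw [Finset.mul_sum, ← Finset.sum_sub_distrib, ← Finset.sum_add_distrib]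
    refine Finset.sum_congr rfl fun t _ => ?_
    rw [WW_cr]
    by_cases h : q t
    · simp only [h, if_true]; ring
    · simp [h, hs t h]
  have hC : ∑ v, cr v (WW y) ⬝ᵥ y = WW y ⬝ᵥ WW y := by
    conv_rhs => rw [← adjBW]
    unfold BB
    rw [sum_dotProduct]
  have hD : WW y ⬝ᵥ WW y + m * ∑ s, (if r s then WW y s * WW y s else 0) ≤
      ∑ s, ((s.filter (fun v => q (s.erase v))).card : ℝ) * (WW y s * WW y s) := by
    unfold dotProduct
    rw [Finset.mul_sum, ← Finset.sum_add_distrib]
    refine Finset.sum_le_sum fun s _ => ?_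
    by_cases h : r s
    · obtain ⟨h1, h2⟩ := hr s h
      rw [Finset.filter_true_of_mem h2, h1]
      simp only [h, if_true]
      push_cast
      exact le_of_eq (by ring)
    · simp only [h, if_false, mul_zero, add_zero]
      by_cases h0 : WW y s = 0
      · simp [h0]
      · have : (s.filter (fun v => q (s.erase v))).Nonempty := by
          by_contra hne
          apply h0
          unfold WW
          rw [Finset.sum_apply]
          refine Finset.sum_eq_zero fun v _ => ?_
          unfold wd
          split_ifs with hv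
          · have : ¬ q (s.erase v) := fun hq' => hne ⟨v, Finset.mem_filter.2 ⟨hv, hq'⟩⟩
            simp [hs _ this]
          · rfl
        have h1 : (1 : ℝ) ≤ ((s.filter (fun v => q (s.erase v))).card : ℝ) := by
          exact_mod_cast this.card_pos
        nlinarith [mul_self_nonneg (WW y s)]
  simp only [hB] at hA
  rw [Finset.sum_add_distrib, Finset.sum_sub_distrib, ← Finset.mul_sum, hC, sum_cr_sq] at hA
  simp only [Finset.sum_const, Finset.card_univ, Fintype.card_fin, nsmul_eq_mul] at hA
  have hm' : (0 : ℝ) < m := by exact_mod_cast hm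
  have : m * ∑ s, (if r s then WW y s * WW y s else 0) ≤ m * (c * (y ⬝ᵥ y)) := by
    nlinarith
  exact le_of_mul_le_mul_left this hm'

theorem cs_step {ι : Type*} [Fintype ι] (a b : ι → ℝ) (c N : ℝ) (hc : 0 ≤ c) (hN : 0 ≤ N)
    (h1 : N = a ⬝ᵥ b) (h2 : b ⬝ᵥ b ≤ c * N) : N ≤ c * (a ⬝ᵥ a) := by
  have ha : 0 ≤ a ⬝ᵥ a := Finset.sum_nonneg fun i _ => mul_self_nonneg _
  have hcs : (a ⬝ᵥ b) ^ 2 ≤ (a ⬝ᵥ a) * (b ⬝ᵥ b) := by
    have := Finset.sum_mul_sq_le_sq_mul_sq Finset.univ a b
    simpa [dotProduct, sq] using this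
  rcases hN.eq_or_lt with h | h
  · rw [← h]; positivity
  · rw [← h1] at hcs
    have : N * N ≤ N * (c * (a ⬝ᵥ a)) := by nlinarith
    exact le_of_mul_le_mul_left this h

end Pool.Agent.H.MP_284e51_co
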